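import Pool.Agent.W902.C6.Stm2
import Pool.Agent.W589.C6.Cnt

/-!
C6X-LIM1: limits of word counts.
-/

set_option autoImplicit false

open Pool.Agent.H800R3 Pool.Agent.W902.C6 Pool.Agent.W589.C6.Cnt Filter

namespace Pool.Agent.W359.C6.Lim1

/-- the conjugate -/
noncomputable def be : ℝ := 1 - Real.sqrt 2

lemma sq2 : Real.sqrt 2 ^ 2 = 2 := Real.sq_sqrt (by norm_num)

lemma sq2_pos : 0 < Real.sqrt 2 := Real.sqrt_pos.2 (by norm_num)

lemma be_sq : be ^ 2 = 2 * be + 1 := by
  unfold be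
  have := sq2
  nlinarith

lemma al_pos : 0 < al := by
  have := two_le_al
  linarith

lemma pl_closed : ∀ i : ℕ, (pl i : ℝ) * (2 * Real.sqrt 2) = al ^ (i + 1) - be ^ (i + 1) := by
  intro i
  induction i using Nat.twoStepInduction with
  | zero =>
    simp only [pl, al, be]
    push_cast
    ring
  | one =>
    simp only [pl, al, be]
    push_cast
    ring
  | more m ih1 ih2 =>
    have e1 : al ^ (m + 2 + 1) = 2 * al ^ (m + 1 + 1) + al ^ (m + 1) := by
      have : al ^ (m + 2 + 1) = al ^ (m + 1) * al ^ 2 := by ring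
      rw [this, al_sq]
      ring
    have e2 : be ^ (m + 2 + 1) = 2 * be ^ (m + 1 + 1) + be ^ (m + 1) := by
      have : be ^ (m + 2 + 1) = be ^ (m + 1) * be ^ 2 := by ring
      rw [this, be_sq]
      ring
    rw [e1, e2, pl]
    push_cast
    have h : (2 * (pl (m + 1) : ℝ) + (pl m : ℝ)) * (2 * Real.sqrt 2) =
      2 * ((pl (m + 1) : ℝ) * (2 * Real.sqrt 2)) + (pl m : ℝ) * (2 * Real.sqrt 2) := by ring
    rw [h, ih1, ih2]
    ring

lemma abs_r : |be / al| < 1 := by
  rw [abs_div, abs_of_pos al_pos, div_lt_one al_pos]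
  have h1 : Real.sqrt 2 < 2 := by
    rw [Real.sqrt_lt' (by norm_num)]
    norm_num
  have h2 := sq2_pos
  unfold be al
  rw [abs_lt]
  constructor <;> linarith

lemma lim_pl : Tendsto (fun i : ℕ => (pl i : ℝ) / al ^ i) atTop
    (nhds ((2 + Real.sqrt 2) / 4)) := by
  have h0 : Tendsto (fun i : ℕ => (be / al) ^ i) atTop (nhds 0) :=
    tendsto_pow_atTop_nhds_zero_of_abs_lt_one abs_r
  have h1 : Tendsto (fun i : ℕ => (al - be * (be / al) ^ i) / (2 * Real.sqrt 2)) atTop
      (nhds ((al - be * 0) / (2 * Real.sqrt 2))) :=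
    (tendsto_const_nhds.sub (tendsto_const_nhds.mul h0)).div_const _
  have e : (al - be * 0) / (2 * Real.sqrt 2) = (2 + Real.sqrt 2) / 4 := by
    have := sq2
    have h2 := sq2_pos
    unfold al
    rw [mul_zero, sub_zero, div_eq_div_iff (by positivity) (by norm_num)]
    nlinarith
  rw [e] at h1
  refine h1.congr fun i => ?_
  have h3 := pl_closed i
  have h4 : (0 : ℝ) < al ^ i := pow_pos al_pos i
  have h5 : (0 : ℝ) < 2 * Real.sqrt 2 := by have := sq2_pos; linarith
  rw [div_eq_div_iff h5.ne' h4.ne', h3, div_pow, sub_mul]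
  have h6 : be * (be ^ i / al ^ i) * al ^ i = be ^ (i + 1) := by
    rw [mul_assoc, div_mul_cancel₀ _ h4.ne']
    ring
  rw [h6]
  ring

lemma cntX_of (X : Set (List Lt)) (i : ℕ) (W : Finset (List Lt))
    (h : ∀ l, l ∈ W ↔ l ∈ X ∧ weight l = i) : cntX X i = W.card := by
  unfold cntX
  have e : {l | l ∈ X ∧ weight l = i} = (W : Set (List Lt)) := by
    ext l
    rw [Finset.mem_coe, h l]
    rfl
  rw [e, Set.ncard_coe_finset]

lemma cnt_WS (i : ℕ) : cntX WS i = pl i := by
  rw [cntX_of WS i (Wd i) (fun l => mem_Wd i l), card_Wd]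

lemma card_two (x y : Lt) (hxy : x ≠ y) (i : ℕ) :
    ((Wd (i + 1)).image (List.cons x) ∪ (Wd i).image (List.cons y)).card = pl (i + 1) + pl i := by
  rw [Finset.card_union_of_disjoint, Finset.card_image_of_injective _ List.cons_injective,
    Finset.card_image_of_injective _ List.cons_injective, card_Wd, card_Wd]
  rw [Finset.disjoint_left]
  intro l h1 h2
  rw [Finset.mem_image] at h1 h2
  obtain ⟨l1, -, rfl⟩ := h1
  obtain ⟨l2, -, h3⟩ := h2
  rw [List.cons.injEq] at h3
  exact hxy h3.1.symm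

lemma cnt_XU (i : ℕ) : cntX XU (i + 2) = pl (i + 1) + pl i := by
  rw [← card_two (true, false) (true, true) (by decide) i]
  apply cntX_of
  intro l
  simp only [Finset.mem_union, Finset.mem_image]
  constructor
  · rintro (⟨l', hl', rfl⟩ | ⟨l', hl', rfl⟩)
    · rw [mem_Wd] at hl'
      have hw : wt (true, false) = 1 := rfl
      refine ⟨⟨?_, (true, false), l', rfl, rfl⟩, ?_⟩
      · rw [nz_cons]; exact ⟨by decide, hl'.1⟩
      · rw [weight_cons]; omega
    · rw [mem_Wd] at hl'
      have hw : wt (true, true) = 2 := rfl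
      refine ⟨⟨?_, (true, true), l', rfl, rfl⟩, ?_⟩
      · rw [nz_cons]; exact ⟨by decide, hl'.1⟩
      · rw [weight_cons]; omega
  · rintro ⟨⟨h1, x, l', rfl, hx⟩, h2⟩
    rw [nz_cons] at h1
    rw [weight_cons] at h2
    obtain ⟨x1, x2⟩ := x
    change x1 = true at hx
    subst hx
    cases x2
    · left
      refine ⟨l', (mem_Wd _ _).2 ⟨h1.2, ?_⟩, rfl⟩
      have : wt (true, false) = 1 := rfl
      omega
    · right
      refine ⟨l', (mem_Wd _ _).2 ⟨h1.2, ?_⟩, rfl⟩
      have : wt (true, true) = 2 := rfl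
      omega

lemma cnt_XV (i : ℕ) : cntX XV (i + 2) = pl (i + 1) + pl i := by
  rw [← card_two (false, true) (true, true) (by decide) i]
  apply cntX_of
  intro l
  simp only [Finset.mem_union, Finset.mem_image]
  constructor
  · rintro (⟨l', hl', rfl⟩ | ⟨l', hl', rfl⟩)
    · rw [mem_Wd] at hl'
      have hw : wt (false, true) = 1 := rfl
      refine ⟨⟨?_, (false, true), l', rfl, rfl⟩, ?_⟩
      · rw [nz_cons]; exact ⟨by decide, hl'.1⟩
      · rw [weight_cons]; omega
    · rw [mem_Wd] at hl'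
      have hw : wt (true, true) = 2 := rfl
      refine ⟨⟨?_, (true, true), l', rfl, rfl⟩, ?_⟩
      · rw [nz_cons]; exact ⟨by decide, hl'.1⟩
      · rw [weight_cons]; omega
  · rintro ⟨⟨h1, x, l', rfl, hx⟩, h2⟩
    rw [nz_cons] at h1
    rw [weight_cons] at h2
    obtain ⟨x1, x2⟩ := x
    change x2 = true at hx
    subst hx
    cases x1
    · left
      refine ⟨l', (mem_Wd _ _).2 ⟨h1.2, ?_⟩, rfl⟩
      have : wt (false, true) = 1 := rfl
      omega
    · right
      refine ⟨l', (mem_Wd _ _).2 ⟨h1.2, ?_⟩, rfl⟩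
      have : wt (true, true) = 2 := rfl
      omega

lemma lim_two : Tendsto (fun i : ℕ => ((pl (i + 1) + pl i : ℕ) : ℝ) / al ^ (i + 2)) atTop
    (nhds (1 / 2)) := by
  have h1 := lim_pl
  have h2 := (tendsto_add_atTop_iff_nat 1).2 lim_pl
  have h3 := (h2.div_const al).add (h1.div_const (al ^ 2))
  have e : (2 + Real.sqrt 2) / 4 / al + (2 + Real.sqrt 2) / 4 / al ^ 2 = 1 / 2 := by
    have ha := al_pos
    have hs := sq2
    have : (2 + Real.sqrt 2) / 4 / al + (2 + Real.sqrt 2) / 4 / al ^ 2 =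
      ((2 + Real.sqrt 2) / 4 * (al + 1)) / al ^ 2 := by
      field_simp
    rw [this, div_eq_div_iff (by positivity) (by norm_num)]
    unfold al
    nlinarith
  rw [e] at h3
  refine h3.congr fun i => ?_
  have ha : al ≠ 0 := al_pos.ne'
  push_cast
  rw [add_div]
  congr 1
  · rw [div_div, pow_add, pow_add]
    congr 1
    ring
  · rw [div_div, pow_add]

theorem main : S_lim1 := by
  refine ⟨?_, ?_, ?_⟩
  · simp_rw [cnt_WS]
    exact lim_pl
  · refine (tendsto_add_atTop_iff_nat 2).1 ?_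
    simp_rw [cnt_XU]
    exact lim_two
  · refine (tendsto_add_atTop_iff_nat 2).1 ?_
    simp_rw [cnt_XV]
    exact lim_two

end Pool.Agent.W359.C6.Lim1
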